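import Mathlib
import Pool.Agent.Run7.h337.MK.SubU

/-!
# Prime tuples between the squares of almost all pairs of consecutive primes
-/

set_option autoImplicit false

namespace Pool.Agent.Results.MP_739ba1_nt.AlmostAllFlatTuples

open Finset Filter
open Run7.h337.MK (PrimeLaw AllFlat)
open Pool.Agent.N384.MQ (ev_log_pow ev_log_ge)

/-- the n-th prime, counted from n = 0 -/
noncomputable def pr (n : ℕ) : ℕ := Nat.nth Nat.Prime n

lemma pr_mono : StrictMono pr := Nat.nth_strictMono Nat.infinite_setOf_prime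

lemma pr_prime (n : ℕ) : (pr n).Prime := Nat.nth_mem_of_infinite Nat.infinite_setOf_prime n

lemma pr_disj {n m : ℕ} (h : n ≠ m) : Disjoint (Ico (pr n) (pr (n + 1))) (Ico (pr m) (pr (m + 1))) := by
  rw [Finset.disjoint_left]
  intro k h1 h2
  rw [mem_Ico] at h1 h2
  rcases lt_or_gt_of_ne h with h3 | h3
  · have : pr (n + 1) ≤ pr m := pr_mono.monotone h3
    omega
  · have : pr (m + 1) ≤ pr n := pr_mono.monotone h3
    omega

lemma sum_gaps (A : Finset ℕ) (X : ℕ) (hA : ∀ n ∈ A, pr (n + 1) ≤ X) : ∑ n ∈ A, (pr (n + 1) - pr n) ≤ X := by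
  classical
  have h1 : (A.biUnion fun n => Ico (pr n) (pr (n + 1))).card = ∑ n ∈ A, (pr (n + 1) - pr n) := by
    rw [card_biUnion]
    · refine sum_congr rfl fun n _ => ?_
      rw [Nat.card_Ico]
    · intro n _ m _ hnm
      exact pr_disj hnm
  rw [← h1]
  calc (A.biUnion fun n => Ico (pr n) (pr (n + 1))).card ≤ (range X).card := by
        apply card_le_card
        intro k hk
        rw [mem_biUnion] at hk
        obtain ⟨n, hn, hk⟩ := hk
        rw [mem_Ico] at hk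
        rw [mem_range]
        have := hA n hn
        omega
    _ = X := card_range X

lemma hit_card (A E : Finset ℕ) (hA : ∀ n ∈ A, ∃ k ∈ E, pr n ≤ k ∧ k < pr (n + 1)) : A.card ≤ E.card := by
  classical
  choose! f hf using hA
  apply card_le_card_of_injOn f
  · intro n hn
    exact (hf n hn).1
  · intro n hn m hm hnm
    by_contra h
    have h1 := hf n hn
    have h2 := hf m hm
    have h3 := Finset.disjoint_left.1 (pr_disj h) (mem_Ico.2 h1.2)
    apply h3
    rw [hnm]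
    exact mem_Ico.2 h2.2

theorem result (r T U : ℕ) (ε : ℝ) (hε : 0 < ε) (hε1 : ε ≤ 1) :
    ∃ V C D X₀ : ℕ, ∀ X : ℕ, X₀ ≤ X →
    ∃ E : Finset ℕ, (E.card : ℝ) ≤ X / Real.log X ^ U ∧ ∀ n : ℕ, pr (n + 1) ≤ X → n ∉ E →
    PrimeLaw 1 X ε (pr n ^ 2) (pr (n + 1) ^ 2) ∧ AllFlat 1 r T U V C D X ε (pr n ^ 2) (pr (n + 1) ^ 2) := by
  classical
  obtain ⟨V, C, D, X₀, h⟩ := Run7.h337.MK.sub_unc 1 (le_refl 1) r (T + U + 2) (U + 1) ε hε hε1
  refine ⟨V, C, D, max X₀ 3, fun X hX => ?_⟩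
  obtain ⟨hL4, E, hE, h2⟩ := h X (le_trans (le_max_left _ _) hX)
  have hX3 : 3 ≤ X := le_trans (le_max_right _ _) hX
  have hX0 : (0 : ℝ) < X := by
    have : (3 : ℝ) ≤ X := by exact_mod_cast hX3
    linarith
  obtain ⟨L, hL⟩ : ∃ L, L = Real.log X := ⟨_, rfl⟩
  rw [← hL] at hL4 hE h2 ⊢
  have hL0 : 0 < L := by linarith
  have hL1 : 1 ≤ L := by linarith
  have hmono : ∀ e f : ℕ, e ≤ f → L ^ e ≤ L ^ f := fun e f hef => pow_le_pow_right₀ hL1 hef
  obtain ⟨A₁, hA₁⟩ : ∃ A : Finset ℕ, A = (range (X + 1)).filter (fun n => pr (n + 1) ≤ X ∧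
    L ^ (T + U + 2) < ((pr (n + 1) - pr n : ℕ) : ℝ)) := ⟨_, rfl⟩
  obtain ⟨A₂, hA₂⟩ : ∃ A : Finset ℕ, A = (range (X + 1)).filter (fun n => pr (n + 1) ≤ X ∧
    ∃ k ∈ E, pr n ≤ k ∧ k < pr (n + 1)) := ⟨_, rfl⟩
  refine ⟨A₁ ∪ A₂, ?_, fun n hnX hnE => ?_⟩
  · have h3 : (A₁.card : ℝ) * L ^ (T + U + 2) ≤ X := by
      have h4 := sum_gaps A₁ X (fun n hn => by
        rw [hA₁, mem_filter] at hn
        exact hn.2.1)
      calc (A₁.card : ℝ) * L ^ (T + U + 2) = ∑ n ∈ A₁, L ^ (T + U + 2) := by rw [sum_const, nsmul_eq_mul]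
        _ ≤ ∑ n ∈ A₁, ((pr (n + 1) - pr n : ℕ) : ℝ) := by
            apply sum_le_sum
            intro n hn
            rw [hA₁, mem_filter] at hn
            exact hn.2.2.le
        _ = ((∑ n ∈ A₁, (pr (n + 1) - pr n) : ℕ) : ℝ) := by push_cast; rfl
        _ ≤ X := by exact_mod_cast h4
    have h5 : (A₂.card : ℝ) ≤ E.card := by
      have := hit_card A₂ E (fun n hn => by
        rw [hA₂, mem_filter] at hn
        exact hn.2.2)
      exact_mod_cast this
    have h6 : ((A₁ ∪ A₂).card : ℝ) ≤ A₁.card + A₂.card := by exact_mod_cast card_union_le _ _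
    have h7 : (A₁.card : ℝ) ≤ X / L ^ (U + 1) := by
      rw [le_div_iff₀ (by positivity)]
      refine le_trans ?_ h3
      exact mul_le_mul_of_nonneg_left (hmono _ _ (by omega)) (Nat.cast_nonneg _)
    have h8 : 2 * ((X : ℝ) / L ^ (U + 1)) ≤ X / L ^ U := by
      rw [pow_succ, ← div_div, mul_div_assoc', div_le_iff₀ hL0]
      have : 0 ≤ (X : ℝ) / L ^ U := by positivity
      nlinarith
    linarith
  · rw [mem_union, not_or] at hnE
    have hlt : pr n < pr (n + 1) := pr_mono (Nat.lt_succ_self n)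
    have hnr : n ∈ range (X + 1) := by
      rw [mem_range]
      have : n ≤ pr n := pr_mono.le_apply
      omega
    have hgap : ((pr (n + 1) - pr n : ℕ) : ℝ) ≤ L ^ (T + U + 2) := by
      by_contra hcon
      apply hnE.1
      rw [hA₁, mem_filter]
      exact ⟨hnr, hnX, not_le.1 hcon⟩
    have hEk : ∀ k, pr n ≤ k → k < pr (n + 1) → k ∉ E := by
      intro k h3 h4 h5
      apply hnE.2
      rw [hA₂, mem_filter]
      exact ⟨hnr, hnX, k, h5, h3, h4⟩
    rw [Nat.cast_sub hlt.le] at hgap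
    have ha1 : 1 ≤ pr n := (pr_prime n).one_lt.le
    obtain ⟨h6, h7⟩ := h2 (pr n) (pr (n + 1)) ha1 hlt (by omega) (by linarith) hEk
    have hpn : (0 : ℝ) < pr n := by exact_mod_cast ha1
    have hlen : ((pr n ^ 2 : ℕ) : ℝ) + (X : ℝ) ^ 1 / L ^ (T + U + 2) ≤ ((pr (n + 1) ^ 2 : ℕ) : ℝ) := by
      have h8 : (X : ℝ) ^ 1 / L ^ (T + U + 2) ≤ pr n := by
        rw [pow_one, div_le_iff₀ (by positivity)]
        refine h6.trans ?_
        exact mul_le_mul_of_nonneg_left (hmono _ _ (by omega)) hpn.le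
      have h9 : (pr n : ℝ) + 1 ≤ pr (n + 1) := by exact_mod_cast hlt
      push_cast
      nlinarith
    obtain ⟨h10, h11⟩ := h7 (pr n ^ 2) (pr (n + 1) ^ 2) (le_refl _) (le_refl _) hlen
    refine ⟨h10, ?_⟩
    apply Run7.h337.MK.allFlat_mono (T' := T + U + 2) (U' := U + 1) (by omega) (by omega) (by rw [← hL]; exact hL1) _ h11
    have : (0 : ℝ) ≤ (X : ℝ) ^ 1 / L ^ (T + U + 2) := by positivity
    linarith

end Pool.Agent.Results.MP_739ba1_nt.AlmostAllFlatTuples
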