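import Pool.Agent.Run7.h946.SQ.Chain

/-!
# Brocard's conjecture outside of a thin set, for primes in Bohr sets

`1, α_1, …, α_r` are linearly independent over `ℚ`. There is one thin set `F` (at most `X / (log X)^A` elements up to `X`, for
every `A`) such that for consecutive primes `p < q`, `p ∉ F`, the primes between `p²` and `q²`, and even those in all the
subintervals of length at least `p / (log p)^W`, are equidistributed in all the Bohr sets of `α`, with the expected number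
`vol (t - s) / (2 log p)`; and there are at least `M` (for example four) of them in every box of volume at least `δ`.
-/

set_option autoImplicit false
set_option maxHeartbeats 4000000

namespace Pool.Agent.Results.MP_739ba1_nt.BohrPrimes

open Finset Filter Topology
open Run7.h946.SQ (Bohr Independent IsThin cnt Good primesBefore chain change_log)

/-- `p < q` are consecutive primes. -/
def ConsecutivePrimes (p q : ℕ) : Prop := p.Prime ∧ q.Prime ∧ p < q ∧ ∀ l, p < l → l < q → ¬ l.Prime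

open Classical in
/-- the number of the primes `l` strictly between `p²` and `q²` with `α l` in the box `[u, v)` modulo one -/
noncomputable def N {r : ℕ} (α u v : Fin r → ℝ) (p q : ℕ) : ℕ := ((Ioo (p ^ 2) (q ^ 2)).filter (Bohr α u v)).card

theorem N_eq {r : ℕ} (α u v : Fin r → ℝ) {p q : ℕ} (hq : 2 ≤ q) : N α u v p q = cnt (Bohr α u v) (p ^ 2) (q ^ 2) := by
  classical
  unfold N cnt
  congr 1
  ext l
  simp only [Finset.mem_filter, mem_Ioo, mem_Ioc]
  constructor
  · rintro ⟨⟨h1, h2⟩, h3⟩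
    exact ⟨⟨h1, h2.le⟩, h3⟩
  · rintro ⟨⟨h1, h2⟩, h3⟩
    refine ⟨⟨h1, lt_of_le_of_ne h2 ?_⟩, h3⟩
    rintro rfl
    have h5 := h3.1
    rw [sq] at h5
    exact Nat.not_prime_mul (by omega) (by omega) h5

/-- **Theorem.** -/
theorem result {r : ℕ} (α : Fin r → ℝ) (hα : Independent α) : ∃ F : Set ℕ, IsThin F ∧
    (∀ (W : ℕ) (ε : ℝ), 0 < ε → ∃ p₀ : ℕ, ∀ p q : ℕ, p₀ ≤ p → p ∉ F → ConsecutivePrimes p q → ∀ s t : ℕ, p ^ 2 ≤ s →
      s ≤ t → t ≤ q ^ 2 → (p : ℝ) / Real.log p ^ W ≤ (t : ℝ) - s →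
      ∀ u v : Fin r → ℝ, (∀ j, u j ≤ v j) → (∀ j, v j ≤ u j + 1) →
      |(cnt (Bohr α u v) s t : ℝ) - (∏ j, (v j - u j)) / (2 * Real.log p) * ((t : ℝ) - s)| ≤
        ε / (2 * Real.log p) * ((t : ℝ) - s)) ∧
    (∀ (M : ℕ) (δ : ℝ), 0 < δ → ∃ p₀ : ℕ, ∀ p q : ℕ, p₀ ≤ p → p ∉ F → ConsecutivePrimes p q →
      ∀ u v : Fin r → ℝ, (∀ j, u j ≤ v j) → (∀ j, v j ≤ u j + 1) → δ ≤ ∏ j, (v j - u j) → M ≤ N α u v p q) := by
  obtain ⟨E, hE, h⟩ := Run7.h946.SQ.exceptional hα
  have key : ∀ (W : ℕ) (ε : ℝ), 0 < ε → ∃ p₀ : ℕ, ∀ p q : ℕ, p₀ ≤ p → p ∉ primesBefore E → ConsecutivePrimes p q →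
      ∀ s t : ℕ, p ^ 2 ≤ s →
      s ≤ t → t ≤ q ^ 2 → (p : ℝ) / Real.log p ^ W ≤ (t : ℝ) - s →
      ∀ u v : Fin r → ℝ, (∀ j, u j ≤ v j) → (∀ j, v j ≤ u j + 1) →
      |(cnt (Bohr α u v) s t : ℝ) - (∏ j, (v j - u j)) / (2 * Real.log p) * ((t : ℝ) - s)| ≤
        ε / (2 * Real.log p) * ((t : ℝ) - s) := by
    intro W ε hε
    obtain ⟨n₀, h1⟩ := h (W + 1) (ε / 2) (by positivity)
    obtain ⟨Y, hY⟩ := exists_nat_ge (Real.exp (4 + 2 / ε))
    refine ⟨n₀ + Y + 8, fun p q hp hpF hc s t hs hst ht hlen u v hu hv => ?_⟩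
    obtain ⟨c1, c2, c3, c4⟩ := hc
    have hp8 : (8 : ℝ) ≤ p := by exact_mod_cast (by omega : 8 ≤ p)
    have hl : 4 + 2 / ε ≤ Real.log p := by
      rw [Real.le_log_iff_exp_le (by linarith)]
      exact hY.trans (by exact_mod_cast (by omega : Y ≤ p))
    have hε2 : 0 < 2 / ε := by positivity
    have hl4 : 4 ≤ Real.log p := by linarith
    have hl0 : 0 < Real.log p := by linarith
    have hq2 : q ≤ 2 * p := by
      obtain ⟨l, g1, g2, g3⟩ := Nat.exists_prime_lt_and_le_two_mul p (by omega)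
      by_contra hcon
      exact c4 l g2 (by omega) g1
    set w : ℝ := ∏ j, (v j - u j) with hw
    have hw0 : 0 ≤ w := prod_nonneg fun j _ => by linarith [hu j]
    have hw1 : w ≤ 1 := by
      rw [hw]
      exact prod_le_one (fun j _ => by linarith [hu j]) (fun j _ => by linarith [hv j])
    have hℓ : (p : ℝ) / Real.log p ^ W ≤ (p : ℝ) + 1 := by
      have : (p : ℝ) / Real.log p ^ W ≤ p := div_le_self (by linarith) (one_le_pow₀ (by linarith))
      linarith
    have hℓ0 : 0 < (p : ℝ) / Real.log p ^ W := by positivity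
    -- the estimates between the squares of `n` and `n + 2`
    have hloc : ∀ n : ℕ, p ≤ n → n < q → ∀ s t : ℕ, n ^ 2 ≤ s → s ≤ t → t ≤ (n + 2) ^ 2 →
        (p : ℝ) / Real.log p ^ W ≤ (t : ℝ) - s →
        |(cnt (Bohr α u v) s t : ℝ) - w / (2 * Real.log p) * ((t : ℝ) - s)| ≤
          ε / (2 * Real.log p) * ((t : ℝ) - s) := by
      intro n hpn hnq s t a1 a2 a3 a4
      have hnE : n ∉ E := by
        intro hn
        exact hpF ⟨c1, n, hn, hpn, fun l b1 b2 => c4 l b1 (by omega)⟩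
      have hpn' : (p : ℝ) ≤ n := by exact_mod_cast hpn
      have hn2p : (n : ℝ) ≤ 2 * p := by exact_mod_cast (by omega : n ≤ 2 * p)
      have hlpn : Real.log p ≤ Real.log n := Real.log_le_log (by linarith) hpn'
      have hln : Real.log n ≤ Real.log p + 1 := by
        calc Real.log n ≤ Real.log (2 * p) := Real.log_le_log (by linarith) hn2p
          _ = Real.log 2 + Real.log p := Real.log_mul (by norm_num) (by linarith)
          _ ≤ Real.log p + 1 := by linarith [Real.log_two_lt_d9]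
      have b1 : (n : ℝ) / Real.log n ^ (W + 1) ≤ (t : ℝ) - s := by
        refine le_trans ?_ a4
        have b2 : (n : ℝ) / Real.log n ^ (W + 1) ≤ (2 * p) / Real.log p ^ (W + 1) := by
          apply div_le_div₀ (by linarith) hn2p (by positivity)
          exact pow_le_pow_left₀ hl0.le hlpn _
        refine b2.trans ?_
        rw [pow_succ, div_le_div_iff₀ (by positivity) (by positivity)]
        have b3 : 0 ≤ (p : ℝ) * Real.log p ^ W := by positivity
        nlinarith
      have b2 := h1 n (by omega) hnE s t ((Nat.pow_le_pow_left (Nat.sub_le _ _) 2).trans a1) a2 a3 b1 u v hu hv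
      have b3 : (0 : ℝ) ≤ (t : ℝ) - s := by linarith
      have b4 := change_log (η := ε / 2) hl0 hlpn (by
        have b5 : 1 ≤ ε / 2 * Real.log p := by
          have b6 : ε / 2 * (2 / ε) ≤ ε / 2 * Real.log p := mul_le_mul_of_nonneg_left (by linarith) (by positivity)
          have b7 : ε / 2 * (2 / ε) = 1 := by field_simp
          linarith
        linarith) (by positivity) b3 hw0 hw1 (by positivity) b2
      have b5 : ε / 2 + ε / 2 = ε := by ring
      rw [b5] at b4
      exact b4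
    -- the general case
    obtain ⟨n, hn⟩ : ∃ n, n = Nat.sqrt s := ⟨_, rfl⟩
    have d1 : n ^ 2 ≤ s := by rw [hn]; exact Nat.sqrt_le' s
    have d2 : s < (n + 1) ^ 2 := by rw [hn]; exact Nat.lt_succ_sqrt' s
    have d3 : p ≤ n := by rw [hn]; exact Nat.le_sqrt'.2 hs
    have hst' : s < t := by
      have : (s : ℝ) < t := by linarith
      exact_mod_cast this
    have d4 : n < q := by
      have : n ^ 2 < q ^ 2 := by omega
      exact lt_of_pow_lt_pow_left₀ 2 (Nat.zero_le _) this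
    exact chain (Bohr α u v) hℓ hloc q n s t d3 d4 (by omega) d1 d2.le hst ht hlen
  refine ⟨primesBefore E, hE.primesBefore, key, fun M δ hδ => ?_⟩
  obtain ⟨p₀, h1⟩ := key 0 (δ / 2) (by positivity)
  obtain ⟨p₁, h2⟩ := Run7.h946.SQ.large_log 1 (δ / 2) M (by positivity)
  refine ⟨max (max p₀ p₁) 8, fun p q hp hpF hc u v hu hv hvol => ?_⟩
  have hp0 : p₀ ≤ p := ((le_max_left _ _).trans (le_max_left _ _)).trans hp
  have hp1 : p₁ ≤ p := ((le_max_right _ _).trans (le_max_left _ _)).trans hp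
  have hp8 : 8 ≤ p := (le_max_right _ _).trans hp
  have hp8' : (8 : ℝ) ≤ p := by exact_mod_cast hp8
  obtain ⟨c1, c2, c3, c4⟩ := hc
  have hpq : p ^ 2 ≤ q ^ 2 := Nat.pow_le_pow_left c3.le 2
  have hpq' : (p : ℝ) + 1 ≤ q := by exact_mod_cast c3
  have e1 : 2 * (p : ℝ) ≤ ((q ^ 2 : ℕ) : ℝ) - ((p ^ 2 : ℕ) : ℝ) := by
    push_cast
    nlinarith
  have hl0 : 0 < Real.log p := Real.log_pos (by linarith)
  have h3 := (abs_le.1 (h1 p q hp0 hpF ⟨c1, c2, c3, c4⟩ (p ^ 2) (q ^ 2) le_rfl hpq le_rfl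
    (by rw [pow_zero, div_one]; linarith) u v hu hv)).1
  rw [N_eq α u v c2.two_le]
  have h4 := h2 p hp1
  rw [pow_one] at h4
  have h5 : (M : ℝ) ≤ cnt (Bohr α u v) (p ^ 2) (q ^ 2) := by
    have h6 : δ / 2 / (2 * Real.log p) * (((q ^ 2 : ℕ) : ℝ) - ((p ^ 2 : ℕ) : ℝ)) ≤
        cnt (Bohr α u v) (p ^ 2) (q ^ 2) := by
      have h7 : (δ - δ / 2) / (2 * Real.log p) ≤ ((∏ j, (v j - u j)) - δ / 2) / (2 * Real.log p) :=
        div_le_div_of_nonneg_right (by linarith) (by positivity)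
      have h8 : 0 ≤ ((q ^ 2 : ℕ) : ℝ) - ((p ^ 2 : ℕ) : ℝ) := by linarith
      have h9 := mul_le_mul_of_nonneg_right h7 h8
      have e2 : (δ - δ / 2) / (2 * Real.log p) = δ / 2 / (2 * Real.log p) := by ring
      have e3 : ((∏ j, (v j - u j)) - δ / 2) / (2 * Real.log p) =
        (∏ j, (v j - u j)) / (2 * Real.log p) - δ / 2 / (2 * Real.log p) := by ring
      rw [e2, e3, sub_mul] at h9
      linarith
    have h7 : δ / 2 * ((p : ℝ) / Real.log p) = δ / 2 / (2 * Real.log p) * (2 * p) := by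
      field_simp
    have h8 : δ / 2 / (2 * Real.log p) * (2 * (p : ℝ)) ≤
        δ / 2 / (2 * Real.log p) * (((q ^ 2 : ℕ) : ℝ) - ((p ^ 2 : ℕ) : ℝ)) :=
      mul_le_mul_of_nonneg_left e1 (by positivity)
    linarith
  exact_mod_cast h5

end Pool.Agent.Results.MP_739ba1_nt.BohrPrimes
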