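import Mathlib
import Pool.Agent.Run7.h880.RP.PrS

/-!
# MP_739ba1_nt: random positions at the two ends of the intervals between the squares of consecutive primes

Let `p < p'` be consecutive primes of `(N, 2 N]`. We look for primes of Brocard's interval `(p^2, p'^2)` at `m` random positions at
each end: `p^2 + v j` and `p'^2 - w j`, with `v j`, `w j` independent and uniform in `[1, q]`, `q ≤ N` (all these positions are in
the interval, and `p^2 + v i < p'^2 - w j`). For `m = kap log² N` the pairs `(x, y)` of the two counts, divided by their expected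
value `(kap / 2) log N`, for the different consecutive primes fill, in probability, the region `kap (rate x + rate y) ≤ 2`. The
threshold for four primes among the `2 m` positions, for all the consecutive primes, is `kap = 1`.
-/

set_option autoImplicit false

namespace Pool.Agent.Results.MP_739ba1_nt.EndsOfBrocardIntervals

open Finset Filter

/-- the number of the `j` for which `p ^ 2 + v j` is a prime -/
def start {m : ℕ} (v : Fin m → ℕ) (p : ℕ) : ℕ := (univ.filter fun j => (p ^ 2 + v j).Prime).card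

/-- the number of the `j` for which `p' ^ 2 - w j` is a prime -/
def finish {m : ℕ} (w : Fin m → ℕ) (p' : ℕ) : ℕ := (univ.filter fun j => (p' ^ 2 - w j).Prime).card

/-- all the `m`-tuples of integers of `[1, q]` -/
def positions (q m : ℕ) : Finset (Fin m → ℕ) := Fintype.piFinset fun _ => Icc 1 q

/-- the numbers of the primes of `[n ^ 2 - q, n ^ 2)` and of `(n ^ 2, n ^ 2 + q]` are `q / (2 log N)` up to the factor
`1 + O(1 / log N)` -/
def Regular (N q n : ℕ) : Prop :=
  |(((Icc 1 q).filter fun w => (n ^ 2 - w).Prime).card : ℝ) / q - 1 / (2 * Real.log N)| ≤ 3 / Real.log N ^ 2 ∧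
  |(((Icc 1 q).filter fun w => (n ^ 2 + w).Prime).card : ℝ) / q - 1 / (2 * Real.log N)| ≤ 3 / Real.log N ^ 2

/-- `p < p'` are consecutive primes of `(N, 2 N]`, both regular -/
def Pair (N q p p' : ℕ) : Prop :=
  N < p ∧ p' ≤ 2 * N ∧ p.Prime ∧ p'.Prime ∧ p < p' ∧ (∀ s, p < s → s < p' → ¬ s.Prime) ∧ Regular N q p ∧ Regular N q p'

/-- the rate function of the Poisson law -/
noncomputable def rate (u : ℝ) : ℝ := 1 - u + u * Real.log u

/-- the limit shape -/
def Region (kap : ℝ) : Set (ℝ × ℝ) := {z | 0 ≤ z.1 ∧ 0 ≤ z.2 ∧ kap * (rate z.1 + rate z.2) ≤ 2}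

/-- the distance of `z` from the pair of the two counts, divided by their expected value `(kap / 2) log N` -/
noncomputable def dist (kap : ℝ) (N : ℕ) {m : ℕ} (v w : Fin m → ℕ) (p p' : ℕ) (z : ℝ × ℝ) : ℝ :=
  |start v p / (kap / 2 * Real.log N) - z.1| + |finish w p' / (kap / 2 * Real.log N) - z.2|

/-- the pairs of normalized counts fill the region, up to `ε` -/
def Fills (kap ε : ℝ) (N q : ℕ) {m : ℕ} (v w : Fin m → ℕ) : Prop :=
  (∀ p p', Pair N q p p' → ∃ z ∈ Region kap, dist kap N v w p p' z ≤ ε) ∧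
  (∀ z ∈ Region kap, ∃ p p', Pair N q p p' ∧ dist kap N v w p p' z ≤ ε)

open Classical in
theorem result :
    -- almost all integers are regular
    (∀ a U : ℕ, ∃ N₀ : ℕ, ∀ N : ℕ, N₀ ≤ N → ∀ q : ℕ, (N : ℝ) ≤ q * Real.log N ^ a → q ≤ N →
      (((Ioc N (2 * N)).filter fun n => ¬ Regular N q n).card : ℝ) ≤ N / Real.log N ^ U) ∧
    -- the limit shape for `m = kap log² N`
    (∀ kap ε : ℝ, 0 < kap → 0 < ε → ∀ a : ℕ, ∃ (N₀ : ℕ) (K : ℝ), ∀ N : ℕ, N₀ ≤ N → ∀ q : ℕ,
      (N : ℝ) ≤ q * Real.log N ^ a → q ≤ N → ∀ m : ℕ, |(m : ℝ) - kap * Real.log N ^ 2| ≤ 1 →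
      (((positions q m ×ˢ positions q m).filter fun r => ¬ Fills kap ε N q r.1 r.2).card : ℝ) ≤
        K / Real.log N * ((positions q m ×ˢ positions q m).card : ℝ)) ∧
    -- `k` primes among the positions, for every pair of consecutive primes
    (∀ kap : ℝ, 1 < kap → ∀ k a : ℕ, ∃ (N₀ : ℕ) (K : ℝ), ∀ N : ℕ, N₀ ≤ N → ∀ q : ℕ,
      (N : ℝ) ≤ q * Real.log N ^ a → q ≤ N → ∀ m : ℕ, |(m : ℝ) - kap * Real.log N ^ 2| ≤ 1 →
      (((positions q m ×ˢ positions q m).filter fun r =>
        ∃ p p', Pair N q p p' ∧ start r.1 p + finish r.2 p' < k).card : ℝ) ≤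
        K / Real.log N * ((positions q m ×ˢ positions q m).card : ℝ)) ∧
    -- a pair of consecutive primes with at most `ε log N` primes among the positions
    (∀ kap ε : ℝ, 0 < kap → kap ≤ 1 → 0 < ε → ∀ a : ℕ, ∃ (N₀ : ℕ) (K : ℝ), ∀ N : ℕ, N₀ ≤ N → ∀ q : ℕ,
      (N : ℝ) ≤ q * Real.log N ^ a → q ≤ N → ∀ m : ℕ, |(m : ℝ) - kap * Real.log N ^ 2| ≤ 1 →
      (((positions q m ×ˢ positions q m).filter fun r =>
        ¬ ∃ p p', Pair N q p p' ∧ (start r.1 p : ℝ) + finish r.2 p' ≤ ε * Real.log N).card : ℝ) ≤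
        K / Real.log N * ((positions q m ×ˢ positions q m).card : ℝ)) := by
  have hreg : ∀ N q n : ℕ, Pool.Agent.Run7.h880.RP.RegSq N q n ↔ Regular N q n := by
    intro N q n
    have e : (12 : ℝ) / (2 * Real.log N) ^ 2 = 3 / Real.log N ^ 2 := by
      rw [mul_pow, div_mul_eq_div_div]
      norm_num
    unfold Pool.Agent.Run7.h880.RP.RegSq Regular
    rw [e]
    constructor
    · intro h
      exact ⟨h false, h true⟩
    · rintro ⟨h1, h2⟩ b
      cases b
      · exact h1
      · exact h2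
  have hbad : ∀ N q : ℕ, (Ioc N (2 * N)).filter (fun n => ¬ Regular N q n) =
      Ioc N (2 * N) \ Pool.Agent.Run7.h880.RP.GoodSq N q := by
    intro N q
    ext n
    unfold Pool.Agent.Run7.h880.RP.GoodSq
    simp only [Finset.mem_sdiff, mem_filter, hreg]
    tauto
  have hmem : ∀ N q p p' : ℕ, (p, p') ∈ Pool.Agent.Run7.h880.RP.BP N q ↔ Pair N q p p' := by
    intro N q p p'
    unfold Pool.Agent.Run7.h880.RP.BP Pair Pool.Agent.Run7.h880.RP.Consec
    simp only [mem_filter, mem_product, mem_Ioc, hreg]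
    constructor
    · rintro ⟨⟨h1, h2⟩, ⟨h3, h4, h5, h6⟩, h7, h8⟩
      exact ⟨h1.1, h2.2, h3, h4, h5, h6, h7, h8⟩
    · rintro ⟨h1, h2, h3, h4, h5, h6, h7, h8⟩
      exact ⟨⟨⟨h1, by omega⟩, ⟨by omega, h2⟩⟩, ⟨h3, h4, h5, h6⟩, h7, h8⟩
  have hhits0 : ∀ (q m : ℕ) (w : Fin m → ℕ), w ∈ positions q m → ∀ n : ℕ,
      Pool.Agent.Run7.h880.MK.hits (Pool.Agent.Run7.h880.RP.sqA n q false) w = finish w n := by
    intro q m w hw n
    unfold Pool.Agent.Run7.h880.MK.hits finish Pool.Agent.Run7.h880.RP.sqA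
    congr 1
    refine filter_congr fun l _ => ?_
    rw [mem_filter]
    unfold positions at hw
    rw [Fintype.mem_piFinset] at hw
    simp only [Bool.false_eq_true, if_false]
    exact ⟨fun h => h.2, fun h => ⟨hw l, h⟩⟩
  have hhits1 : ∀ (q m : ℕ) (w : Fin m → ℕ), w ∈ positions q m → ∀ n : ℕ,
      Pool.Agent.Run7.h880.MK.hits (Pool.Agent.Run7.h880.RP.sqA n q true) w = start w n := by
    intro q m w hw n
    unfold Pool.Agent.Run7.h880.MK.hits start Pool.Agent.Run7.h880.RP.sqA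
    congr 1
    refine filter_congr fun l _ => ?_
    rw [mem_filter]
    unfold positions at hw
    rw [Fintype.mem_piFinset] at hw
    simp only [if_true]
    exact ⟨fun h => h.2, fun h => ⟨hw l, h⟩⟩
  have hRg : ∀ kap : ℝ, Pool.Agent.Run7.h880.RP.Reg2 (1 / 2) (kap / 4) = Region kap := by
    intro kap
    unfold Pool.Agent.Run7.h880.RP.Reg2 Region
    ext z
    show (0 ≤ z.1 ∧ 0 ≤ z.2 ∧ kap / 4 * (rate z.1 + rate z.2) ≤ 1 / 2) ↔
      (0 ≤ z.1 ∧ 0 ≤ z.2 ∧ kap * (rate z.1 + rate z.2) ≤ 2)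
    constructor
    · rintro ⟨h1, h2, h3⟩
      exact ⟨h1, h2, by linarith⟩
    · rintro ⟨h1, h2, h3⟩
      exact ⟨h1, h2, by linarith⟩
  have main : ∀ kap ε : ℝ, 0 < kap → 0 < ε → ∀ a : ℕ, ∃ (N₀ : ℕ) (K : ℝ), ∀ N : ℕ, N₀ ≤ N → ∀ q : ℕ,
      (N : ℝ) ≤ q * Real.log N ^ a → q ≤ N → ∀ m : ℕ, |(m : ℝ) - kap * Real.log N ^ 2| ≤ 1 →
      (((positions q m ×ˢ positions q m).filter fun r => ¬ Fills kap ε N q r.1 r.2).card : ℝ) ≤
        K / Real.log N * ((positions q m ×ˢ positions q m).card : ℝ) := by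
    intro kap ε hkap hε a
    obtain ⟨K, hK, N₂, h2⟩ := Pool.Agent.Run7.h880.RP.main_br kap ε hkap hε a
    refine ⟨N₂, K, fun N hN q hq1 hq2 m hm => ?_⟩
    have key : ∀ r : (Fin m → ℕ) × (Fin m → ℕ),
        (r ∈ positions q m ×ˢ positions q m ∧ ¬ Fills kap ε N q r.1 r.2) →
        ¬ Pool.Agent.Run7.h880.RP.Shape (Pool.Agent.Run7.h880.RP.BP N q)
          (fun r => Pool.Agent.Run7.h880.RP.sqA r.1 q true) (fun r => Pool.Agent.Run7.h880.RP.sqA r.2 q false)
          (kap / 2 * Real.log N) (Pool.Agent.Run7.h880.RP.Reg2 (1 / 2) (kap / 4)) ε r := by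
      rintro r ⟨hp, hnot⟩ hsh
      rw [mem_product] at hp
      refine hnot ?_
      unfold Pool.Agent.Run7.h880.RP.Shape at hsh
      rw [hRg] at hsh
      obtain ⟨s1, s2⟩ := hsh
      constructor
      · intro p p' hpp
        obtain ⟨z, hz, h4⟩ := s1 (p, p') ((hmem N q p p').2 hpp)
        simp only at h4
        rw [hhits1 q m r.1 hp.1, hhits0 q m r.2 hp.2] at h4
        exact ⟨z, hz, h4⟩
      · intro z hz
        obtain ⟨⟨p, p'⟩, hn, h4⟩ := s2 z hz
        simp only at h4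
        rw [hhits1 q m r.1 hp.1, hhits0 q m r.2 hp.2] at h4
        exact ⟨p, p', (hmem N q p p').1 hn, h4⟩
    refine le_trans ?_ (h2 N hN q hq1 hq2 m hm
      (fun r => r ∈ positions q m ×ˢ positions q m ∧ ¬ Fills kap ε N q r.1 r.2) key)
    refine Nat.cast_le.2 (card_le_card fun p hp => ?_)
    simp only [Finset.mem_filter] at hp ⊢
    exact ⟨hp.1, hp⟩
  refine ⟨?_, main, ?_, ?_⟩
  · intro a U
    obtain ⟨N₀, h⟩ := Pool.Agent.Run7.h880.RP.goodsq_card a U
    refine ⟨N₀, fun N hN q h1 h2 => ?_⟩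
    rw [hbad]
    exact h N hN q h1 h2
  · intro kap hkap k a
    have hkap0 : 0 < kap := by linarith
    -- the distance of the region from `(0, 0)`
    obtain ⟨δ, hδ, hδR⟩ : ∃ δ : ℝ, 0 < δ ∧ ∀ z ∈ Region kap, δ ≤ z.1 + z.2 := by
      have hcont : Continuous rate := by
        unfold rate
        exact (continuous_const.sub continuous_id).add Real.continuous_mul_log
      have r0 : rate 0 = 1 := by simp [rate]
      have h0 : ContinuousAt rate 0 := hcont.continuousAt
      have h1 := (Metric.continuousAt_iff.1 h0) (1 - 1 / kap) (by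
        have : 1 / kap < 1 := by rw [div_lt_one hkap0]; exact hkap
        linarith)
      obtain ⟨δ, hδ, h2⟩ := h1
      refine ⟨δ, hδ, fun z hz => ?_⟩
      obtain ⟨z1, z2, z3⟩ := hz
      by_contra hcon
      rw [not_le] at hcon
      have h3 : ∀ x : ℝ, 0 ≤ x → x < δ → 1 / kap < rate x := by
        intro x hx hxδ
        have h4 := h2 (show Dist.dist x 0 < δ by rw [Real.dist_eq, sub_zero, abs_of_nonneg hx]; exact hxδ)
        rw [Real.dist_eq, r0] at h4
        have := (abs_lt.1 h4).1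
        linarith
      have h4 := h3 z.1 z1 (by linarith)
      have h5 := h3 z.2 z2 (by linarith)
      have h6 : kap * (1 / kap + 1 / kap) < kap * (rate z.1 + rate z.2) :=
        mul_lt_mul_of_pos_left (by linarith) hkap0
      have h7 : kap * (1 / kap + 1 / kap) = 2 := by field_simp; norm_num
      linarith
    obtain ⟨N₁, K, h1⟩ := main kap (δ / 2) hkap0 (by positivity) a
    obtain ⟨N₂, h2⟩ := eventually_atTop.1 (Pool.Agent.N384.MQ.ev_log_ge (4 * (k + 1) / (δ * kap)))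
    refine ⟨max N₁ N₂, K, fun N hN q hq1 hq2 m hm => le_trans ?_ (h1 N (le_trans (le_max_left _ _) hN) q hq1 hq2 m hm)⟩
    have l2 := h2 N (le_trans (le_max_right _ _) hN)
    have hδk : 0 < δ * kap := by positivity
    rw [div_le_iff₀ hδk] at l2
    have hL0 : 0 < Real.log N := by
      by_contra hcon
      rw [not_lt] at hcon
      nlinarith [Nat.cast_nonneg (α := ℝ) k, mul_nonneg_of_nonpos_of_nonpos hcon (by linarith : -(δ * kap) ≤ 0)]
    refine Nat.cast_le.2 (card_le_card fun r hr => ?_)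
    simp only [Finset.mem_filter] at hr ⊢
    refine ⟨hr.1, fun hF => ?_⟩
    obtain ⟨p, p', hpp, hlt⟩ := hr.2
    obtain ⟨z, hz, h3⟩ := hF.1 p p' hpp
    have h4 := hδR z hz
    unfold dist at h3
    obtain ⟨μ, hμ⟩ : ∃ μ, μ = kap / 2 * Real.log N := ⟨_, rfl⟩
    have hμ0 : 0 < μ := by rw [hμ]; positivity
    rw [← hμ] at h3
    have h5 := neg_abs_le ((start r.1 p : ℝ) / μ - z.1)
    have h6 := neg_abs_le ((finish r.2 p' : ℝ) / μ - z.2)
    have h7 : δ / 2 ≤ ((start r.1 p : ℝ) + finish r.2 p') / μ := by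
      rw [add_div]
      linarith
    rw [le_div_iff₀ hμ0] at h7
    have h8 : (start r.1 p : ℝ) + finish r.2 p' < k := by exact_mod_cast hlt
    rw [hμ] at h7
    nlinarith
  · intro kap ε hkap hkap1 hε a
    obtain ⟨N₁, K, h1⟩ := main kap (2 * ε / kap) hkap (by positivity) a
    obtain ⟨N₂, h2⟩ := eventually_atTop.1 (Pool.Agent.N384.MQ.ev_log_ge 1)
    refine ⟨max N₁ N₂, K, fun N hN q hq1 hq2 m hm => le_trans ?_ (h1 N (le_trans (le_max_left _ _) hN) q hq1 hq2 m hm)⟩
    have l2 := h2 N (le_trans (le_max_right _ _) hN)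
    have hL0 : 0 < Real.log N := by linarith
    refine Nat.cast_le.2 (card_le_card fun r hr => ?_)
    simp only [Finset.mem_filter] at hr ⊢
    refine ⟨hr.1, fun hF => hr.2 ?_⟩
    have r0 : rate 0 = 1 := by simp [rate]
    obtain ⟨p, p', hpp, h3⟩ := hF.2 (0, 0) ⟨le_rfl, le_rfl, by
      show kap * (rate 0 + rate 0) ≤ 2
      rw [r0]
      linarith⟩
    refine ⟨p, p', hpp, ?_⟩
    unfold dist at h3
    simp only [sub_zero] at h3
    obtain ⟨μ, hμ⟩ : ∃ μ, μ = kap / 2 * Real.log N := ⟨_, rfl⟩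
    have hμ0 : 0 < μ := by rw [hμ]; positivity
    rw [← hμ] at h3
    have h5 := le_abs_self ((start r.1 p : ℝ) / μ)
    have h6 := le_abs_self ((finish r.2 p' : ℝ) / μ)
    have h7 : ((start r.1 p : ℝ) + finish r.2 p') / μ ≤ 2 * ε / kap := by
      rw [add_div]
      linarith
    rw [div_le_iff₀ hμ0] at h7
    refine h7.trans (le_of_eq ?_)
    rw [hμ]
    field_simp

end Pool.Agent.Results.MP_739ba1_nt.EndsOfBrocardIntervals
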