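import Mathlib
import Pool.Agent.Run7.h794.MK.All
import Pool.Agent.Run7.h591.EG.Fin3

set_option autoImplicit false
set_option maxHeartbeats 4000000

namespace Pool.Agent.Results.MP_739ba1_nt.MixingBrocard

open Finset MeasureTheory Filter Topology
open Pool.Agent.Run7.h591.EG

/-- the primes `p` strictly between the squares of `q` and `q'` for which `A` and the preimage of `B` under `T^p` are
independent up to `ε` -/
noncomputable def mixPrimes {X : Type*} [MeasurableSpace X] (μ : Measure X) (T : X → X) (A B : Set X) (ε : ℝ)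
    (q q' : ℕ) : Finset ℕ :=
  (Ioo (q ^ 2) (q' ^ 2)).filter (fun p => p.Prime ∧ |μ.real (A ∩ T^[p] ⁻¹' B) - μ.real A * μ.real B| < ε)

theorem result {X : Type*} [MeasurableSpace X] (μ : Measure X) [IsProbabilityMeasure μ] (T : X → X)
    (hT : MeasurePreserving T μ μ)
    (hW : ∀ A B : Set X, MeasurableSet A → MeasurableSet B →
      Tendsto (fun K : ℕ => (∑ k ∈ range K, |μ.real (A ∩ T^[k] ⁻¹' B) - μ.real A * μ.real B|) / K) atTop (𝓝 0))
    (A B : Set X) (hA : MeasurableSet A) (hB : MeasurableSet B) (ε : ℝ) (hε : 0 < ε) :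
    ∀ C : ℕ, ∃ N₀ : ℕ, ∀ N : ℕ, N₀ ≤ N → ∃ Bad : Finset ℕ, Bad ⊆ Ioc N (2 * N) ∧
      (Bad.card : ℝ) ≤ N / Real.log N ^ C ∧ ∀ q ∈ Ioc N (2 * N), q ∉ Bad → q.Prime → ∀ q' : ℕ, q'.Prime → q < q' →
        (1 - ε) * (2 * q / Real.log q) ≤ ((mixPrimes μ T A B ε q q').card : ℝ) ∧
        4 ≤ (mixPrimes μ T A B ε q q').card := by
  have hWM : WMix T μ := hW
  set ε₀ : ℝ := min ε (1 / 2) with hε₀d
  have hε₀ : 0 < ε₀ := lt_min hε (by norm_num)
  have hε₀le : ε₀ ≤ ε := min_le_left _ _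
  have hε₀h : ε₀ ≤ 1 / 2 := min_le_right _ _
  have h1 := wmix Pool.Agent.Run7.h794.MK.all_all hT hWM hA hB (ε₀ / 8) (by positivity)
  have h2 := count_pr Pool.Agent.Run7.h794.MK.all_all (ε₀ / 8) (by positivity)
  obtain ⟨n₀, hn₀⟩ := full
  obtain ⟨n₂, hn₂⟩ := Pool.Agent.H373R2.T7.ev_L' 1
  obtain ⟨n₃, hn₃⟩ := ev_big 1 4 one_pos
  have h3 := AW_at' (AW_and h1 h2) (fun n => (n - 1) ^ 2) (fun n => (n + 1) ^ 2) 1 n₀ hn₀
    (fun n => 1 ≤ n → (Real.log n * (((pr ((n - 1) ^ 2) ((n + 1) ^ 2)).filter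
        (fun p => ε₀ / 8 ≤ |μ.real (A ∩ T^[p] ⁻¹' B) - μ.real A * μ.real B|)).card : ℝ) ≤ ε₀ / 8 * (4 * n) ∧
        |2 * Real.log n * ((pr ((n - 1) ^ 2) ((n + 1) ^ 2)).card : ℝ) - 4 * n| ≤ ε₀ / 8 * (4 * n))) (by
      intro N n hn h hn1
      rwa [len_full n hn1] at h)
  refine alm_mono _ _ (max (max n₂ n₃) (max 4 (⌈8 / ε₀⌉₊ + 1))) ?_ (alm_shift _ h3)
  intro q hq e hqp q' hq'p hqq
  obtain ⟨e1, e2⟩ := e (by omega)
  simp only [Nat.add_sub_cancel] at e1 e2
  have hq2 : n₂ ≤ q := le_trans (le_trans (le_max_left _ _) (le_max_left _ _)) hq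
  have hq3 : n₃ ≤ q := le_trans (le_trans (le_max_right _ _) (le_max_left _ _)) hq
  have hq4 : 4 ≤ q := le_trans (le_trans (le_max_left _ _) (le_max_right _ _)) hq
  have hq5 : ⌈8 / ε₀⌉₊ + 1 ≤ q := le_trans (le_trans (le_max_right _ _) (le_max_right _ _)) hq
  have hL := hn₂ q hq2
  have hbig := hn₃ q hq3
  have hqR : (4 : ℝ) ≤ q := by exact_mod_cast hq4
  have hqε : 8 / ε₀ ≤ q := by
    have h5 : (⌈8 / ε₀⌉₊ : ℝ) ≤ q := by exact_mod_cast (by omega : ⌈8 / ε₀⌉₊ ≤ q)
    exact (Nat.le_ceil _).trans h5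
  have hL0 : 0 < Real.log q := by linarith
  set L' : ℝ := Real.log ((q + 1 : ℕ) : ℝ) with hL'
  have hLL : L' ≤ Real.log q + 1 / q := by
    rw [hL']
    push_cast
    have : (q : ℝ) + 1 = q * (1 + 1 / q) := by field_simp
    rw [this, Real.log_mul (by linarith) (by positivity)]
    have := Real.log_le_sub_one_of_pos (show (0 : ℝ) < 1 + 1 / q by positivity)
    linarith
  have hLL2 : Real.log q ≤ L' := by
    rw [hL']
    apply Real.log_le_log (by linarith)
    push_cast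
    linarith
  have hL'0 : 0 < L' := by linarith
  -- the prime `q` is odd and the next prime is at least `q + 2`
  have hq'2 : q + 2 ≤ q' := by
    rcases Nat.lt_or_ge q' (q + 2) with h | h
    · exfalso
      have h6 : q' = q + 1 := by omega
      have o1 := hqp.eq_two_or_odd
      have o2 := hq'p.eq_two_or_odd
      omega
    · exact h
  set S := pr (q ^ 2) ((q + 1 + 1) ^ 2) with hS
  set G := S.filter (fun p => ε₀ / 8 ≤ |μ.real (A ∩ T^[p] ⁻¹' B) - μ.real A * μ.real B|) with hG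
  have hsub : S \ G ⊆ mixPrimes μ T A B ε q q' := by
    intro p hp
    rw [Finset.mem_sdiff, hG, mem_filter, not_and] at hp
    have h7 := hp.2 hp.1
    push Not at h7
    have h8 := hp.1
    rw [hS, pr, mem_filter, mem_Ioc] at h8
    unfold mixPrimes
    rw [mem_filter, mem_Ioo]
    refine ⟨⟨h8.1.1, ?_⟩, h8.2, by linarith⟩
    have h9 : (q + 1 + 1) ^ 2 ≤ q' ^ 2 := Nat.pow_le_pow_left (by omega) 2
    refine lt_of_le_of_ne (h8.1.2.trans h9) ?_
    rintro rfl
    exact sq_not_prime _ h8.2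
  have hcard : (S.card : ℝ) - G.card ≤ (mixPrimes μ T A B ε q q').card := by
    have h9 := card_le_card hsub
    have h10 : S.card ≤ (S \ G).card + G.card := by
      have := card_sdiff_add_card S G
      have h11 : S.card ≤ (S ∪ G).card := card_le_card subset_union_left
      omega
    have h11 : S.card ≤ (mixPrimes μ T A B ε q q').card + G.card := by omega
    have h12 : (S.card : ℝ) ≤ ((mixPrimes μ T A B ε q q').card : ℝ) + G.card := by exact_mod_cast h11
    linarith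
  have f1 : (4 - ε₀ / 2) * (q + 1) ≤ 2 * L' * S.card := by
    have := (abs_le.1 e2).1
    push_cast at this
    linarith
  have f2 : L' * (G.card : ℝ) ≤ ε₀ / 2 * (q + 1) := by
    push_cast at e1
    linarith
  have f3 : (2 - ε₀) * (q + 1) ≤ L' * ((mixPrimes μ T A B ε q q').card : ℝ) := by
    have : L' * ((S.card : ℝ) - G.card) ≤ L' * ((mixPrimes μ T A B ε q q').card : ℝ) := by gcongr
    nlinarith
  have hM0 : (0 : ℝ) ≤ ((mixPrimes μ T A B ε q q').card : ℝ) := by positivity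
  have f4 : L' ≤ Real.log q * (1 + ε₀ / 8) := by
    have h12 : 1 / (q : ℝ) ≤ ε₀ / 8 := by
      rw [div_le_div_iff₀ (by linarith) (by norm_num)]
      rw [div_le_iff₀ hε₀] at hqε
      linarith
    nlinarith
  have f5 : (1 - ε₀) * (2 * q) ≤ Real.log q * ((mixPrimes μ T A B ε q q').card : ℝ) := by
    have h13 : (2 - ε₀) * (q + 1) ≤ (Real.log q * (1 + ε₀ / 8)) * ((mixPrimes μ T A B ε q q').card : ℝ) :=
      f3.trans (by gcongr)
    have h14 : (1 - ε₀) * (2 * q) * (1 + ε₀ / 8) ≤ (2 - ε₀) * (q + 1) := by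
      have e3 : 0 ≤ ε₀ * q := by positivity
      have e4 : 0 ≤ ε₀ ^ 2 * q := by positivity
      nlinarith
    have h15 : (1 - ε₀) * (2 * q) * (1 + ε₀ / 8) ≤
        (Real.log q * ((mixPrimes μ T A B ε q q').card : ℝ)) * (1 + ε₀ / 8) := by
      calc _ ≤ _ := h14.trans h13
        _ = _ := by ring
    exact le_of_mul_le_mul_right h15 (by positivity)
  have f6 : (1 - ε) * (2 * q / Real.log q) ≤ ((mixPrimes μ T A B ε q q').card : ℝ) := by
    rw [mul_div_assoc', div_le_iff₀ hL0]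
    have : (1 - ε) * (2 * q) ≤ (1 - ε₀) * (2 * q) := by
      apply mul_le_mul_of_nonneg_right _ (by positivity)
      linarith
    linarith
  refine ⟨f6, ?_⟩
  have f7 : (4 : ℝ) ≤ ((mixPrimes μ T A B ε q q').card : ℝ) := by
    rw [one_mul, le_div_iff₀ hL0] at hbig
    have : (4 : ℝ) * Real.log q ≤ Real.log q * ((mixPrimes μ T A B ε q q').card : ℝ) := by nlinarith
    rw [mul_comm] at this
    exact le_of_mul_le_mul_left this hL0
  exact_mod_cast f7

end Pool.Agent.Results.MP_739ba1_nt.MixingBrocard
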